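import Pool.Agent.Q91.PT.Stm4
import Pool.Agent.Q299.PT.LOC

/-! # Project PT (helper91), job LO2: logarithmic convexity with an error of order `1/n` -/

set_option autoImplicit false

namespace Pool.Agent.Q14.PT.LO2

open Finset Pool.Agent.H976R2 Pool.Agent.H739K Pool.Agent.H924P
open Pool.Agent.Q91.PT
open Pool.Agent.Q299.PT.DEL (bn_nonneg bn_le_one ph_nonneg ph_le_one mem_XB card_le_NB Nn_le Nn_nonneg)
open scoped Classical

/-- absorbing powers of `n` -/
theorem absorb (s : ℝ) (hs : 0 < s) : ∃ C : ℝ, 0 < C ∧ ∀ n : ℕ, 1 ≤ n → ∀ L : ℝ, 1 ≤ L →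
    L ≤ s / 2 * n → (n : ℝ) ^ 4 * Real.exp (-s * n) ≤ C * (L / n * Real.exp (-L)) := by
  refine ⟨120 * (2 / s) ^ 5, by positivity, ?_⟩
  intro n hn L hL hLn
  have hnp : (0 : ℝ) < n := by exact_mod_cast hn
  have h1 := Real.pow_div_factorial_le_exp (s / 2 * n) (by positivity) 5
  have h2 : ((Nat.factorial 5 : ℕ) : ℝ) = 120 := by norm_num [Nat.factorial]
  rw [h2, div_le_iff₀ (by norm_num)] at h1
  have h3 : (n : ℝ) ^ 5 ≤ 120 * (2 / s) ^ 5 * Real.exp (s / 2 * n) := by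
    have h4 : (n : ℝ) ^ 5 = (2 / s) ^ 5 * (s / 2 * n) ^ 5 := by
      rw [← mul_pow]
      congr 1
      field_simp
    calc (n : ℝ) ^ 5 = (2 / s) ^ 5 * (s / 2 * n) ^ 5 := h4
      _ ≤ (2 / s) ^ 5 * (Real.exp (s / 2 * n) * 120) := mul_le_mul_of_nonneg_left h1 (by positivity)
      _ = _ := by ring
  have h5 : (n : ℝ) ^ 5 * Real.exp (-s * n) ≤ 120 * (2 / s) ^ 5 * Real.exp (-L) := by
    calc (n : ℝ) ^ 5 * Real.exp (-s * n) ≤
          120 * (2 / s) ^ 5 * Real.exp (s / 2 * n) * Real.exp (-s * n) :=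
          mul_le_mul_of_nonneg_right h3 (Real.exp_pos _).le
      _ = 120 * (2 / s) ^ 5 * Real.exp (-(s / 2 * n)) := by
          rw [mul_assoc, ← Real.exp_add]
          congr 2
          ring
      _ ≤ _ := mul_le_mul_of_nonneg_left (Real.exp_le_exp.2 (by linarith)) (by positivity)
  have h6 : (n : ℝ) ^ 4 * Real.exp (-s * n) = (n : ℝ) ^ 5 * Real.exp (-s * n) / n := by
    field_simp
  rw [h6, div_le_iff₀ hnp]
  calc _ ≤ 120 * (2 / s) ^ 5 * Real.exp (-L) := h5
    _ ≤ 120 * (2 / s) ^ 5 * (L * Real.exp (-L)) := by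
        refine mul_le_mul_of_nonneg_left ?_ (by positivity)
        nlinarith [Real.exp_pos (-L)]
    _ = _ := by
        field_simp

/-- `y (1 + log (M / y))` is increasing -/
theorem mono2 {y x M : ℝ} (hy : 0 < y) (hyx : y ≤ x) (hxM : x ≤ M) :
    y * (1 + Real.log (M / y)) ≤ x * (1 + Real.log (M / x)) := by
  have hx : 0 < x := by linarith
  have hM : 0 < M := by linarith
  have h1 : Real.log (M / y) = Real.log (M / x) + Real.log (x / y) := by
    rw [← Real.log_mul (by positivity) (by positivity)]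
    congr 1
    field_simp
  have h2 : Real.log (x / y) ≤ x / y - 1 := Real.log_le_sub_one_of_pos (by positivity)
  have h3 : 0 ≤ Real.log (M / x) := Real.log_nonneg (by rw [le_div_iff₀ hx]; linarith)
  rw [h1]
  have h4 : y * Real.log (x / y) ≤ x - y := by
    calc y * Real.log (x / y) ≤ y * (x / y - 1) := mul_le_mul_of_nonneg_left h2 hy.le
      _ = x - y := by field_simp
  nlinarith [mul_nonneg (sub_nonneg.2 hyx) h3]

theorem trunc2 {y x M L : ℝ} (hy : 0 < y) (hyx : y ≤ x) (hxM : x ≤ M) (hL : 1 ≤ L) :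
    y * (1 + Real.log (M / y)) ≤ 2 * L * (x + Real.exp (-L) * M) := by
  have hx : 0 < x := by linarith
  have hM : 0 < M := by linarith
  have hE : 0 < Real.exp (-L) := Real.exp_pos _
  have hE1 : Real.exp (-L) ≤ 1 := Real.exp_le_one_iff.mpr (by linarith)
  obtain ⟨z, hz⟩ : ∃ z : ℝ, z = max x (Real.exp (-L) * M) := ⟨_, rfl⟩
  have hz1 : x ≤ z := by
    rw [hz]
    exact le_max_left _ _
  have hz2 : Real.exp (-L) * M ≤ z := by
    rw [hz]
    exact le_max_right _ _
  have hz3 : z ≤ M := by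
    rw [hz]
    refine max_le hxM ?_
    nlinarith
  have hz4 : z ≤ x + Real.exp (-L) * M := by
    rw [hz]
    refine max_le ?_ ?_
    · have : 0 < Real.exp (-L) * M := by positivity
      linarith
    · linarith
  have hzp : 0 < z := by linarith
  have h1 := mono2 hy (hyx.trans hz1) hz3
  have h2 : Real.log (M / z) ≤ L := by
    rw [← Real.log_exp L]
    refine Real.log_le_log (by positivity) ?_
    rw [div_le_iff₀ hzp]
    calc M = Real.exp L * (Real.exp (-L) * M) := by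
          rw [← mul_assoc, ← Real.exp_add]
          simp
      _ ≤ _ := mul_le_mul_of_nonneg_left hz2 (Real.exp_pos _).le
  calc _ ≤ z * (1 + Real.log (M / z)) := h1
    _ ≤ z * (2 * L) := mul_le_mul_of_nonneg_left (by linarith) hzp.le
    _ ≤ (x + Real.exp (-L) * M) * (2 * L) := mul_le_mul_of_nonneg_right hz4 (by linarith)
    _ = _ := by ring

/-- Cauchy-Schwarz -/
theorem cs {ι : Type} (s : Finset ι) (r f g : ι → ℝ) (hr : ∀ i ∈ s, 0 ≤ r i) (hf : ∀ i ∈ s, 0 ≤ f i)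
    (hg : ∀ i ∈ s, 0 ≤ g i) (h : ∀ i ∈ s, r i ^ 2 ≤ f i * g i) :
    (∑ i ∈ s, r i) ^ 2 ≤ (∑ i ∈ s, f i) * ∑ i ∈ s, g i := by
  have h1 : ∑ i ∈ s, r i ≤ ∑ i ∈ s, Real.sqrt (f i) * Real.sqrt (g i) := by
    refine sum_le_sum ?_
    intro i hi
    rw [← Real.sqrt_mul (hf i hi)]
    exact Real.le_sqrt_of_sq_le (h i hi)
  have h2 := Finset.sum_mul_sq_le_sq_mul_sq s (fun i => Real.sqrt (f i)) (fun i => Real.sqrt (g i))
  have h3 : ∑ i ∈ s, Real.sqrt (f i) ^ 2 = ∑ i ∈ s, f i :=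
    sum_congr rfl fun i hi => Real.sq_sqrt (hf i hi)
  have h4 : ∑ i ∈ s, Real.sqrt (g i) ^ 2 = ∑ i ∈ s, g i :=
    sum_congr rfl fun i hi => Real.sq_sqrt (hg i hi)
  rw [h3, h4] at h2
  refine le_trans ?_ h2
  exact pow_le_pow_left₀ (sum_nonneg hr) h1 2

/-- the final computation -/
theorem fin1 {b0 b1 b2 S A u Q : ℝ} (hb1 : 0 ≤ b1) (hb0 : 0 ≤ b0) (hA : 0 ≤ A) (hu : 0 ≤ u)
    (hu1 : u ≤ 1) (hbQ : b0 ≤ Q) (h1 : b1 ≤ S + A * (u * Q)) (h2 : S ≤ A * b0)
    (h3 : S ^ 2 ≤ b0 * (b2 + A * (u * Q))) :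
    b1 ^ 2 ≤ b0 * b2 + (A + 3 * A ^ 2) * u * Q ^ 2 := by
  have hQ : 0 ≤ Q := hb0.trans hbQ
  have huQ : 0 ≤ u * Q := mul_nonneg hu hQ
  have k1 : b1 ^ 2 ≤ (S + A * (u * Q)) ^ 2 := pow_le_pow_left₀ hb1 h1 2
  have k2 : S * (A * (u * Q)) ≤ A * b0 * (A * (u * Q)) :=
    mul_le_mul_of_nonneg_right h2 (mul_nonneg hA huQ)
  have k3 : A * b0 * (A * (u * Q)) ≤ A ^ 2 * (u * Q ^ 2) := by
    have : b0 * (u * Q) ≤ Q * (u * Q) := mul_le_mul_of_nonneg_right hbQ huQ
    calc A * b0 * (A * (u * Q)) = A ^ 2 * (b0 * (u * Q)) := by ring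
      _ ≤ A ^ 2 * (Q * (u * Q)) := mul_le_mul_of_nonneg_left this (sq_nonneg A)
      _ = _ := by ring
  have k4 : b0 * (A * (u * Q)) ≤ A * (u * Q ^ 2) := by
    have : b0 * (u * Q) ≤ Q * (u * Q) := mul_le_mul_of_nonneg_right hbQ huQ
    calc b0 * (A * (u * Q)) = A * (b0 * (u * Q)) := by ring
      _ ≤ A * (Q * (u * Q)) := mul_le_mul_of_nonneg_left this hA
      _ = _ := by ring
  have k5 : (A * (u * Q)) ^ 2 ≤ A ^ 2 * (u * Q ^ 2) := by
    have : u ^ 2 ≤ u := by nlinarith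
    calc (A * (u * Q)) ^ 2 = A ^ 2 * (u ^ 2 * Q ^ 2) := by ring
      _ ≤ A ^ 2 * (u * Q ^ 2) :=
        mul_le_mul_of_nonneg_left (mul_le_mul_of_nonneg_right this (sq_nonneg Q)) (sq_nonneg A)
  calc b1 ^ 2 ≤ (S + A * (u * Q)) ^ 2 := k1
    _ = S ^ 2 + 2 * (S * (A * (u * Q))) + (A * (u * Q)) ^ 2 := by ring
    _ ≤ b0 * (b2 + A * (u * Q)) + 2 * (A ^ 2 * (u * Q ^ 2)) + A ^ 2 * (u * Q ^ 2) := by
        linarith
    _ = b0 * b2 + b0 * (A * (u * Q)) + 3 * (A ^ 2 * (u * Q ^ 2)) := by ring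
    _ ≤ b0 * b2 + A * (u * Q ^ 2) + 3 * (A ^ 2 * (u * Q ^ 2)) := by linarith
    _ = _ := by ring

/-- words obtained by an insertion -/
theorem ins_mem {w : List Dir} {p : ℕ × Dir} (hs : Pool.Agent.H976R2.sq w = 1) (hp : p ∈ adm w) :
    (ins w p.1 p.2).length = w.length + 2 ∧ Saw (ins w p.1 p.2) ∧
      Pool.Agent.H976R2.sq (ins w p.1 p.2) = 1 := by
  unfold adm at hp
  rw [mem_filter, mem_product, mem_range] at hp
  refine ⟨Lip.ins_length w p.1 p.2 hp.1.1, hp.2.2, ?_⟩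
  rw [sq_ins p.2 hp.1.1, hs]

theorem card_adm_le (w : List Dir) : ((adm w).card : ℝ) ≤ 2 * w.length := by
  exact_mod_cast AA_le w

theorem T1_nonneg (a : ℤ) (w : List Dir) : 0 ≤ T1 (ph a) w :=
  sum_nonneg fun _ _ => ph_nonneg a _

theorem T2_nonneg (a : ℤ) (w : List Dir) : 0 ≤ T2 (ph a) w :=
  sum_nonneg fun _ _ => T1_nonneg a _

theorem T1_le (a : ℤ) (w : List Dir) (B : ℝ) (h : ∀ p ∈ adm w, ph a (ins w p.1 p.2) ≤ B)
    (hB : 0 ≤ B) : T1 (ph a) w ≤ 2 * w.length * B := by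
  unfold T1
  refine (sum_le_card_nsmul _ _ _ h).trans ?_
  rw [nsmul_eq_mul]
  exact mul_le_mul_of_nonneg_right (card_adm_le w) hB

theorem T2_le (a : ℤ) (w : List Dir) (B : ℝ) (h : ∀ p ∈ adm w, T1 (ph a) (ins w p.1 p.2) ≤ B)
    (hB : 0 ≤ B) : T2 (ph a) w ≤ 2 * w.length * B := by
  unfold T2
  refine (sum_le_card_nsmul _ _ _ h).trans ?_
  rw [nsmul_eq_mul]
  exact mul_le_mul_of_nonneg_right (card_adm_le w) hB

/-- words with a state in the tails -/
theorem bad (hins : S_ins) {C c : ℝ} (hC : 0 < C) (hc : 0 < c)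
    (htal : ∀ (K K' : ℕ) (j j' : ℤ), 1 ≤ K →
      |(K' : ℤ) - K| ≤ 20 → |j' - j| ≤ 20 → (K : ℝ) / 8 < |2 * (j : ℝ) - K| →
      bn K' j' ≤ C * Real.exp (-c * K))
    (ε : ℝ) (hε : 0 < ε) (n : ℕ) (hn : 3 ≤ n) (a : ℤ) (w : List Dir) (hl : w.length = n) (hw : Saw w)
    (hs : Pool.Agent.H976R2.sq w = 1) (hK : ε * n ≤ ((Fl w).card : ℝ))
    (hj : ¬ |2 * ((a - base w : ℤ) : ℝ) - (Fl w).card| ≤ (Fl w).card / 8) :
    T1 (ph a) w ≤ 2 * n * (C * Real.exp (-(c * ε) * n)) ∧
    T2 (ph a) w ≤ 2 * n * (2 * (n + 2) * (C * Real.exp (-(c * ε) * n))) := by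
  have hnp : (0 : ℝ) < n := by exact_mod_cast (by omega : 0 < n)
  have hK1 : 1 ≤ (Fl w).card := by
    have : 0 < ((Fl w).card : ℝ) := lt_of_lt_of_le (by positivity) hK
    exact_mod_cast this
  push Not at hj
  have hexp : C * Real.exp (-c * (Fl w).card) ≤ C * Real.exp (-(c * ε) * n) := by
    refine mul_le_mul_of_nonneg_left (Real.exp_le_exp.2 ?_) hC.le
    nlinarith
  have hB : 0 ≤ C * Real.exp (-(c * ε) * n) := by positivity
  have h1 : ∀ p ∈ adm w, ph a (ins w p.1 p.2) ≤ C * Real.exp (-(c * ε) * n) := by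
    intro p hp
    obtain ⟨h2, h3⟩ := hins w p.1 p.2 (by omega) hw hs hp
    refine le_trans (htal (Fl w).card (Fl (ins w p.1 p.2)).card (a - base w)
      (a - base (ins w p.1 p.2)) hK1 ?_ ?_ hj) hexp
    · omega
    · rw [show a - base (ins w p.1 p.2) - (a - base w) = -(base (ins w p.1 p.2) - base w) by ring,
        abs_neg]
      omega
  have h4 : ∀ p ∈ adm w, T1 (ph a) (ins w p.1 p.2) ≤ 2 * (n + 2) * (C * Real.exp (-(c * ε) * n)) := by
    intro p hp
    obtain ⟨q1, q2, q3⟩ := ins_mem hs hp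
    have h5 := T1_le a (ins w p.1 p.2) (C * Real.exp (-(c * ε) * n)) (by
      intro q hq
      obtain ⟨h2, h3⟩ := hins w p.1 p.2 (by omega) hw hs hp
      obtain ⟨h2', h3'⟩ := hins (ins w p.1 p.2) q.1 q.2 (by omega) q2 q3 hq
      rw [abs_le] at h2 h3 h2' h3'
      refine le_trans (htal (Fl w).card (Fl (ins (ins w p.1 p.2) q.1 q.2)).card (a - base w)
        (a - base (ins (ins w p.1 p.2) q.1 q.2)) hK1 ?_ ?_ hj) hexp
      · rw [abs_le]
        omega
      · rw [abs_le]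
        omega) hB
    rw [q1, hl] at h5
    push_cast at h5
    exact h5
  constructor
  · have := T1_le a w _ h1 hB
    rw [hl] at this
    exact this
  · have := T2_le a w _ h4 (by positivity)
    rw [hl] at this
    exact this

/-- trivial bounds -/
theorem triv (n : ℕ) (a : ℤ) (w : List Dir) (hl : w.length = n)
    (hs : Pool.Agent.H976R2.sq w = 1) :
    T1 (ph a) w ≤ 2 * n ∧ T2 (ph a) w ≤ 2 * n * (2 * (n + 2)) := by
  constructor
  · have := T1_le a w 1 (fun p _ => ph_le_one a _) zero_le_one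
    rw [hl, mul_one] at this
    exact this
  · have := T2_le a w (2 * (n + 2)) (fun p hp => by
      have h := T1_le a (ins w p.1 p.2) 1 (fun p _ => ph_le_one a _) zero_le_one
      rw [(ins_mem hs hp).1, hl, mul_one] at h
      push_cast at h
      exact h) (by positivity)
    rw [hl] at this
    exact this

/-- the sum of `φ x²` -/
theorem sumx (hph : S_ph2) (hen : S_en2) (hflp : S_flp) (ε : ℝ) (hε : 0 < ε) (n : ℕ) (hn : 3 ≤ n)
    (a : ℤ) (L : ℝ) (hL : 1 ≤ L) :
    ∑ w ∈ XB n Set.univ (ε * n),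
      ph a w * ((2 * ((a - base w : ℤ) : ℝ) - (Fl w).card) / (Fl w).card) ^ 2 ≤
      16 / ε ^ 2 * (L / n * (Nn n a + Real.exp (-L) * (KP n).card)) := by
  have hnp : (0 : ℝ) < n := by exact_mod_cast (by omega : 0 < n)
  have hκ : 0 < ε * n := by positivity
  rw [hph n hn a (ε * n) hκ]
  obtain ⟨X, hX⟩ : ∃ X : Finset (List Dir), X = XB n Set.univ (ε * n) := ⟨_, rfl⟩
  rw [← hX]
  obtain ⟨Y, hY⟩ : ∃ Y : Finset (List Dir), Y = X.filter (fun w => (ar w : ℤ) = a) := ⟨_, rfl⟩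
  rw [← hY]
  have hYX : Y ⊆ X := by
    rw [hY]
    exact filter_subset _ _
  have hYN : (Y.card : ℝ) ≤ Nn n a := by
    refine card_le_NB Y (fun w hw => ?_)
    rw [hY] at hw
    obtain ⟨h1, h2⟩ := mem_filter.mp hw
    rw [hX] at h1
    exact ⟨(mem_XB.mp h1).1, Set.mem_univ _, h2⟩
  have hN0 : 0 ≤ Nn n a := Nn_nonneg
  have hRHS : 0 ≤ 16 / ε ^ 2 * (L / n * (Nn n a + Real.exp (-L) * (KP n).card)) := by
    have : 0 ≤ L / n := by positivity
    positivity
  rcases Y.eq_empty_or_nonempty with h0 | h0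
  · rw [h0, sum_empty]
    exact hRHS
  · have hY0 : 0 < (Y.card : ℝ) := by exact_mod_cast card_pos.mpr h0
    have hXM : (X.card : ℝ) ≤ (KP n).card := by
      have : X ⊆ KP n := fun w hw => by
        rw [hX] at hw
        exact (mem_XB.mp hw).1
      exact_mod_cast card_le_card this
    have hX0 : 0 < (X.card : ℝ) := lt_of_lt_of_le hY0 (by exact_mod_cast card_le_card hYX)
    obtain ⟨hF1, hF2⟩ := hflp n Set.univ (ε * n) hn
    rw [← hX] at hF1 hF2
    have hF : Flips X Fl sw bb (fun w => (ar w : ℤ)) := hF1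
    have hE := hen (List Dir) X Fl sw bb (fun w => (ar w : ℤ)) hF n (by omega) hF2 Y hYX h0
    have h1 : ∑ w ∈ Y, ((2 * (Dn Fl bb w : ℝ) - (Fl w).card) / (Fl w).card) ^ 2 ≤
        ∑ w ∈ Y, (((Fl w).card : ℝ) - 2 * Dn Fl bb w) ^ 2 * (1 / (ε * n) ^ 2) := by
      refine sum_le_sum ?_
      intro w hw
      have h2 : ε * n ≤ ((Fl w).card : ℝ) := by
        have := hYX hw
        rw [hX] at this
        exact (mem_XB.mp this).2.2
      rw [div_pow, div_eq_mul_one_div]
      have h3 : (2 * (Dn Fl bb w : ℝ) - (Fl w).card) ^ 2 = (((Fl w).card : ℝ) - 2 * Dn Fl bb w) ^ 2 := by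
        ring
      rw [h3]
      refine mul_le_mul_of_nonneg_left ?_ (sq_nonneg _)
      exact one_div_le_one_div_of_le (by positivity) (pow_le_pow_left₀ hκ.le h2 2)
    refine h1.trans ?_
    rw [← sum_mul]
    have h4 : (Y.card : ℝ) * (1 + Real.log (X.card / Y.card)) ≤
        2 * L * (Nn n a + Real.exp (-L) * (KP n).card) := by
      refine le_trans ?_ (trunc2 hY0 hYN Nn_le hL)
      refine mul_le_mul_of_nonneg_left ?_ hY0.le
      have : Real.log ((X.card : ℝ) / Y.card) ≤ Real.log (((KP n).card : ℝ) / Y.card) := by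
        refine Real.log_le_log (by positivity) ?_
        exact div_le_div_of_nonneg_right hXM hY0.le
      linarith
    calc (∑ w ∈ Y, (((Fl w).card : ℝ) - 2 * Dn Fl bb w) ^ 2) * (1 / (ε * n) ^ 2)
        ≤ (8 * n * Y.card * (1 + Real.log (X.card / Y.card))) * (1 / (ε * n) ^ 2) :=
          mul_le_mul_of_nonneg_right hE (by positivity)
      _ = 8 * n * (Y.card * (1 + Real.log (X.card / Y.card))) * (1 / (ε * n) ^ 2) := by ring
      _ ≤ 8 * n * (2 * L * (Nn n a + Real.exp (-L) * (KP n).card)) * (1 / (ε * n) ^ 2) := by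
          refine mul_le_mul_of_nonneg_right ?_ (by positivity)
          exact mul_le_mul_of_nonneg_left h4 (by positivity)
      _ = _ := by
          field_simp
          ring

/-- the sum over the bad words -/
theorem sum_bad (n : ℕ) (ε δ C3 C4 e : ℝ) (hC3 : 0 < C3) (he : 0 ≤ e) (G : List Dir → Prop)
    (T : List Dir → ℝ) (B : ℝ) (hB : 0 ≤ B)
    (hδ : Real.exp (-δ * n) ≤ e) (hC4 : 0 < C4)
    (hfew : (((KP n).filter (fun w => ((Fl w).card : ℝ) < ε * n)).card : ℝ) ≤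
      C4 * Real.exp (-δ * n) * (KP n).card)
    (h1 : ∀ w ∈ KP n, ε * n ≤ ((Fl w).card : ℝ) → ¬ G w → T w ≤ B * (C3 * e))
    (h2 : ∀ w ∈ KP n, T w ≤ B) (h3 : ∀ w ∈ KP n, ε * n ≤ ((Fl w).card : ℝ) ∨ ¬ G w) :
    ∑ w ∈ (KP n).filter (fun w => ¬ G w), T w ≤ B * ((C3 + C4) * (e * (KP n).card)) := by
  have k1 : ∑ w ∈ (KP n).filter (fun w => ¬ G w), T w ≤
      ∑ w ∈ (KP n).filter (fun w => ¬ G w), (B * (C3 * e) +
        if ((Fl w).card : ℝ) < ε * n then B else 0) := by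
    refine sum_le_sum ?_
    intro w hw
    rw [mem_filter] at hw
    have hBC : 0 ≤ B * (C3 * e) := by positivity
    split_ifs with hc
    · have := h2 w hw.1
      linarith
    · have := h1 w hw.1 (not_lt.1 hc) hw.2
      linarith
  have k2 : ∑ w ∈ (KP n).filter (fun w => ¬ G w), (B * (C3 * e) +
        if ((Fl w).card : ℝ) < ε * n then B else 0) ≤
      ∑ w ∈ KP n, (B * (C3 * e) + if ((Fl w).card : ℝ) < ε * n then B else 0) := by
    refine sum_le_sum_of_subset_of_nonneg (filter_subset _ _) ?_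
    intro w _ _
    split_ifs <;> positivity
  have k3 : ∑ w ∈ KP n, (B * (C3 * e) + if ((Fl w).card : ℝ) < ε * n then B else 0) =
      (KP n).card * (B * (C3 * e)) +
        (((KP n).filter (fun w => ((Fl w).card : ℝ) < ε * n)).card : ℝ) * B := by
    rw [sum_add_distrib, sum_const, nsmul_eq_mul, ← sum_filter, sum_const, nsmul_eq_mul]
  have k4 : (((KP n).filter (fun w => ((Fl w).card : ℝ) < ε * n)).card : ℝ) * B ≤
      C4 * e * (KP n).card * B := by
    refine mul_le_mul_of_nonneg_right (hfew.trans ?_) hB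
    refine mul_le_mul_of_nonneg_right ?_ (by positivity)
    exact mul_le_mul_of_nonneg_left hδ hC4.le
  calc _ ≤ _ := k1.trans k2
    _ = _ := k3
    _ ≤ (KP n).card * (B * (C3 * e)) + C4 * e * (KP n).card * B := by linarith
    _ = _ := by ring

/-- Job `PT-LO2` (helper91). -/
theorem t (hins : S_ins) (htal : S_tal) (hphs : S_phs) (hph : S_ph2) (hen : S_en2) (htr : S_tr2)
    (hsq : S_sq2) (hflp : S_flp) (hfew : S_few) (hb : S_bnd) : S_lo2 := by
  obtain ⟨C3, c3, hC3, hc3, htal⟩ := htal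
  obtain ⟨ε, δ, C4, hε, hδ, hC4, hfew⟩ := hfew
  obtain ⟨D, hD, htr⟩ := htr
  obtain ⟨C2, hC2, hsq⟩ := hsq
  obtain ⟨Df, s', hDf, hs', hfw⟩ := Pool.Agent.Q299.PT.LOC.few_exp hb
  obtain ⟨s, hs⟩ : ∃ s : ℝ, s = min (min (c3 * ε) δ) s' := ⟨_, rfl⟩
  have hs0 : 0 < s := by
    rw [hs]
    exact lt_min (lt_min (by positivity) hδ) hs'
  have hsa : s ≤ c3 * ε := by
    rw [hs]
    exact (min_le_left _ _).trans (min_le_left _ _)
  have hsb : s ≤ δ := by
    rw [hs]
    exact (min_le_left _ _).trans (min_le_right _ _)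
  have hsc : s ≤ s' := by
    rw [hs]
    exact min_le_right _ _
  obtain ⟨C7, hC7, habs⟩ := absorb s hs0
  obtain ⟨K1, hK1⟩ : ∃ K1 : ℝ, K1 = (4000 * (C3 + C4) + 2 * D * (C3 + C4) + D * Df) * C7 + D * C2 :=
    ⟨_, rfl⟩
  obtain ⟨K2, hK2⟩ : ∃ K2 : ℝ, K2 = D * C2 + D * (12 * (C3 + C4) + Df) * C7 +
      C2 * 4000000 * (16 / ε ^ 2 + 1 / ε + 1) := ⟨_, rfl⟩
  have hK10 : 0 < K1 := by
    rw [hK1]
    positivity
  have hK20 : 0 < K2 := by
    rw [hK2]
    positivity
  obtain ⟨A, hA⟩ : ∃ A : ℝ, A = K1 + 2000 * C2 + K2 := ⟨_, rfl⟩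
  have hA0 : 0 < A := by
    rw [hA]
    positivity
  refine ⟨A + 3 * A ^ 2, min (s / 2) 1, by positivity, by positivity, ?_⟩
  intro n hn hodd a L hL hLn
  have hn3 : (3 : ℝ) ≤ n := by exact_mod_cast hn
  have hnp : (0 : ℝ) < n := by linarith
  have hLs : L ≤ s / 2 * n := hLn.trans (mul_le_mul_of_nonneg_right (min_le_left _ _) hnp.le)
  have hL1 : L ≤ n := by
    have := hLn.trans (mul_le_mul_of_nonneg_right (min_le_right (s / 2) 1) hnp.le)
    rwa [one_mul] at this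
  obtain ⟨M, hM⟩ : ∃ M : ℝ, M = ((KP n).card : ℝ) := ⟨_, rfl⟩
  have hM0 : 0 ≤ M := by
    rw [hM]
    positivity
  obtain ⟨e, he⟩ : ∃ e : ℝ, e = Real.exp (-s * n) := ⟨_, rfl⟩
  have he0 : 0 < e := by
    rw [he]
    exact Real.exp_pos _
  have hea : Real.exp (-(c3 * ε) * n) ≤ e := by
    rw [he]
    refine Real.exp_le_exp.2 ?_
    nlinarith
  have heb : Real.exp (-δ * n) ≤ e := by
    rw [he]
    refine Real.exp_le_exp.2 ?_
    nlinarith
  have hec : Real.exp (-s' * n) ≤ e := by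
    rw [he]
    refine Real.exp_le_exp.2 ?_
    nlinarith
  obtain ⟨u, hu⟩ : ∃ u : ℝ, u = L / n := ⟨_, rfl⟩
  have hu0 : 0 ≤ u := by
    rw [hu]
    positivity
  have hu1 : u ≤ 1 := by
    rw [hu, div_le_one hnp]
    exact hL1
  have hun : 1 / (n : ℝ) ≤ u := by
    rw [hu]
    exact div_le_div_of_nonneg_right hL hnp.le
  obtain ⟨b0, hb0⟩ : ∃ b0 : ℝ, b0 = Nn n a := ⟨_, rfl⟩
  obtain ⟨b1, hb1⟩ : ∃ b1 : ℝ, b1 = Nn (n + 2) a := ⟨_, rfl⟩
  obtain ⟨b2, hb2⟩ : ∃ b2 : ℝ, b2 = Nn (n + 4) a := ⟨_, rfl⟩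
  have hb00 : 0 ≤ b0 := by
    rw [hb0]
    exact Nn_nonneg
  have hb10 : 0 ≤ b1 := by
    rw [hb1]
    exact Nn_nonneg
  obtain ⟨Q, hQ⟩ : ∃ Q : ℝ, Q = b0 + Real.exp (-L) * M := ⟨_, rfl⟩
  have hEM : 0 ≤ Real.exp (-L) * M := mul_nonneg (Real.exp_pos _).le hM0
  have hQb : b0 ≤ Q := by
    rw [hQ]
    linarith
  have hQ0 : 0 ≤ Q := hb00.trans hQb
  -- the two elementary errors
  have er1 : b0 / n ≤ u * Q := by
    calc b0 / n = 1 / n * b0 := by ring
      _ ≤ u * Q := mul_le_mul hun hQb hb00 hu0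
  have er2 : e * M ≤ C7 * (u * Q) := by
    have k1 := habs n (by omega) L hL hLs
    rw [← he, ← hu] at k1
    have k2 : (1 : ℝ) ≤ (n : ℝ) ^ 4 := one_le_pow₀ (by linarith)
    calc e * M ≤ (n : ℝ) ^ 4 * e * M := by
          refine mul_le_mul_of_nonneg_right ?_ hM0
          nlinarith
      _ ≤ C7 * (u * Real.exp (-L)) * M := mul_le_mul_of_nonneg_right k1 hM0
      _ = C7 * (u * (Real.exp (-L) * M)) := by ring
      _ ≤ C7 * (u * Q) := by
          refine mul_le_mul_of_nonneg_left ?_ hC7.le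
          refine mul_le_mul_of_nonneg_left ?_ hu0
          rw [hQ]
          linarith
  have heM : 0 ≤ e * M := mul_nonneg he0.le hM0
  -- few
  have hfw' : ((few (n + 2)).card : ℝ) + (few (n + 4)).card ≤ Df * (e * M) := by
    refine (hfw n hn hodd).trans ?_
    rw [← hM]
    have k1 : Real.exp (-s' * n) * M ≤ e * M := mul_le_mul_of_nonneg_right hec hM0
    have k2 : Df / n ≤ Df := div_le_self hDf.le (by linarith)
    exact mul_le_mul k2 k1 (by positivity) hDf.le
  have hf2 : (0 : ℝ) ≤ (few (n + 2)).card := Nat.cast_nonneg _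
  have hf4 : (0 : ℝ) ≤ (few (n + 4)).card := Nat.cast_nonneg _
  -- sums of `ph a`
  have e0 : mm (ph a) n = b0 := by rw [hb0]; exact (hphs n hn a).1
  have e1 : mm (ph a) (n + 2) = b1 := by rw [hb1]; exact (hphs (n + 2) (by omega) a).1
  have e2 : mm (ph a) (n + 4) = b2 := by rw [hb2]; exact (hphs (n + 4) (by omega) a).1
  obtain ⟨t1, t2⟩ := htr n hn (ph a) (fun w _ _ _ _ => ⟨ph_nonneg a w, ph_le_one a w⟩)
  rw [e1] at t1
  rw [e2] at t2
  -- the good words
  obtain ⟨G, hG⟩ : ∃ G : List Dir → Prop, G = fun w => ε * n ≤ ((Fl w).card : ℝ) ∧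
      |2 * ((a - base w : ℤ) : ℝ) - (Fl w).card| ≤ (Fl w).card / 8 := ⟨_, rfl⟩
  have hKP : ∀ w ∈ KP n, w.length = n ∧ Saw w ∧ Pool.Agent.H976R2.sq w = 1 := by
    intro w hw
    unfold KP at hw
    rw [mem_filter, mem_SW] at hw
    exact ⟨hw.1.1, hw.1.2, hw.2⟩
  have hbt : ∀ w ∈ KP n, (n : ℝ) / 2000 ≤ bt w := by
    intro w hw
    unfold bt
    rw [(hKP w hw).1]
    exact le_max_right _ _
  have hn2000 : (0 : ℝ) < n / 2000 := by positivity
  have hgood : ∀ w ∈ (KP n).filter G, w ∈ KP n ∧ ε * n ≤ ((Fl w).card : ℝ) ∧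
      T1 (ph a) w ≤ C2 * n * ph a w ∧ T2 (ph a) w ≤ C2 * n ^ 2 * ph a w ∧
      T1 (ph a) w ^ 2 ≤ ph a w * T2 (ph a) w + C2 * (n : ℝ) ^ 2 * ph a w ^ 2 *
        (((2 * ((a - base w : ℤ) : ℝ) - (Fl w).card) / (Fl w).card) ^ 2 + 1 / (Fl w).card + 1 / n) := by
    intro w hw
    rw [mem_filter, hG] at hw
    obtain ⟨q1, q2, q3⟩ := hKP w hw.1
    have hK : 1 ≤ (Fl w).card := by
      have : 0 < ((Fl w).card : ℝ) := lt_of_lt_of_le (by positivity) hw.2.1
      exact_mod_cast this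
    have h := hsq w a (by omega) q2 q3 hK hw.2.2
    rw [q1] at h
    exact ⟨hw.1, hw.2.1, h.2.2.1, h.2.2.2.1, h.2.2.2.2⟩
  have hGsum : ∑ w ∈ (KP n).filter G, ph a w ≤ b0 := by
    rw [← e0]
    unfold mm
    exact sum_le_sum_of_subset_of_nonneg (filter_subset _ _) fun w _ _ => ph_nonneg a w
  have hGs0 : 0 ≤ ∑ w ∈ (KP n).filter G, ph a w := sum_nonneg fun w _ => ph_nonneg a w
  have hbad1 : ∑ w ∈ (KP n).filter (fun w => ¬ G w), T1 (ph a) w ≤
      2 * n * ((C3 + C4) * (e * M)) := by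
    rw [hM]
    refine sum_bad n ε δ C3 C4 e hC3 he0.le G (T1 (ph a)) (2 * n) (by positivity) heb hC4
      (hfew n hn hodd).2 ?_ ?_ ?_
    · intro w hw hK hnG
      obtain ⟨q1, q2, q3⟩ := hKP w hw
      have hj : ¬ |2 * ((a - base w : ℤ) : ℝ) - (Fl w).card| ≤ (Fl w).card / 8 := by
        intro h
        apply hnG
        rw [hG]
        exact ⟨hK, h⟩
      refine (bad hins hC3 hc3 htal ε hε n hn a w q1 q2 q3 hK hj).1.trans ?_
      refine mul_le_mul_of_nonneg_left ?_ (by positivity)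
      exact mul_le_mul_of_nonneg_left hea hC3.le
    · intro w hw
      obtain ⟨q1, q2, q3⟩ := hKP w hw
      exact (triv n a w q1 q3).1
    · intro w hw
      by_cases h : ε * n ≤ ((Fl w).card : ℝ)
      · exact Or.inl h
      · right
        rw [hG]
        exact fun h' => h h'.1
  have hbad2 : ∑ w ∈ (KP n).filter (fun w => ¬ G w), T2 (ph a) w ≤
      2 * n * (2 * (n + 2)) * ((C3 + C4) * (e * M)) := by
    rw [hM]
    refine sum_bad n ε δ C3 C4 e hC3 he0.le G (T2 (ph a)) (2 * n * (2 * (n + 2))) (by positivity) heb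
      hC4 (hfew n hn hodd).2 ?_ ?_ ?_
    · intro w hw hK hnG
      obtain ⟨q1, q2, q3⟩ := hKP w hw
      have hj : ¬ |2 * ((a - base w : ℤ) : ℝ) - (Fl w).card| ≤ (Fl w).card / 8 := by
        intro h
        apply hnG
        rw [hG]
        exact ⟨hK, h⟩
      refine (bad hins hC3 hc3 htal ε hε n hn a w q1 q2 q3 hK hj).2.trans ?_
      calc 2 * (n : ℝ) * (2 * (n + 2) * (C3 * Real.exp (-(c3 * ε) * n))) =
            2 * n * (2 * (n + 2)) * (C3 * Real.exp (-(c3 * ε) * n)) := by ring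
        _ ≤ _ := mul_le_mul_of_nonneg_left (mul_le_mul_of_nonneg_left hea hC3.le) (by positivity)
    · intro w hw
      obtain ⟨q1, q2, q3⟩ := hKP w hw
      exact (triv n a w q1 q3).2
    · intro w hw
      by_cases h : ε * n ≤ ((Fl w).card : ℝ)
      · exact Or.inl h
      · right
        rw [hG]
        exact fun h' => h h'.1
  have hg1 : ∑ w ∈ (KP n).filter G, T1 (ph a) w ≤ C2 * n * b0 := by
    calc _ ≤ ∑ w ∈ (KP n).filter G, C2 * n * ph a w := sum_le_sum fun w hw => (hgood w hw).2.2.1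
      _ = C2 * n * ∑ w ∈ (KP n).filter G, ph a w := by rw [mul_sum]
      _ ≤ _ := mul_le_mul_of_nonneg_left hGsum (by positivity)
  have hg2 : ∑ w ∈ (KP n).filter G, T2 (ph a) w ≤ C2 * n ^ 2 * b0 := by
    calc _ ≤ ∑ w ∈ (KP n).filter G, C2 * n ^ 2 * ph a w :=
          sum_le_sum fun w hw => (hgood w hw).2.2.2.1
      _ = C2 * n ^ 2 * ∑ w ∈ (KP n).filter G, ph a w := by rw [mul_sum]
      _ ≤ _ := mul_le_mul_of_nonneg_left hGsum (by positivity)
  have hs1 : ∑ w ∈ KP n, T1 (ph a) w = ∑ w ∈ (KP n).filter G, T1 (ph a) w +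
      ∑ w ∈ (KP n).filter (fun w => ¬ G w), T1 (ph a) w :=
    (sum_filter_add_sum_filter_not (KP n) G _).symm
  have hs2 : ∑ w ∈ KP n, T2 (ph a) w = ∑ w ∈ (KP n).filter G, T2 (ph a) w +
      ∑ w ∈ (KP n).filter (fun w => ¬ G w), T2 (ph a) w :=
    (sum_filter_add_sum_filter_not (KP n) G _).symm
  obtain ⟨S, hS⟩ : ∃ S : ℝ, S = ∑ w ∈ (KP n).filter G, T1 (ph a) w / bt w := ⟨_, rfl⟩
  have hsb1 : ∑ w ∈ KP n, T1 (ph a) w / bt w = S +
      ∑ w ∈ (KP n).filter (fun w => ¬ G w), T1 (ph a) w / bt w := by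
    rw [hS]
    exact (sum_filter_add_sum_filter_not (KP n) G _).symm
  have hdiv1 : ∑ w ∈ (KP n).filter (fun w => ¬ G w), T1 (ph a) w / bt w ≤
      4000 * ((C3 + C4) * (e * M)) := by
    calc _ ≤ ∑ w ∈ (KP n).filter (fun w => ¬ G w), T1 (ph a) w * (2000 / n) := by
          refine sum_le_sum ?_
          intro w hw
          rw [div_eq_mul_one_div]
          refine mul_le_mul_of_nonneg_left ?_ (T1_nonneg a w)
          calc 1 / bt w ≤ 1 / (n / 2000) :=
                one_div_le_one_div_of_le hn2000 (hbt w (mem_filter.1 hw).1)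
            _ = 2000 / n := by rw [one_div_div]
      _ = (∑ w ∈ (KP n).filter (fun w => ¬ G w), T1 (ph a) w) * (2000 / n) := by rw [sum_mul]
      _ ≤ (2 * n * ((C3 + C4) * (e * M))) * (2000 / n) :=
          mul_le_mul_of_nonneg_right hbad1 (by positivity)
      _ = _ := by
          field_simp
          ring
  have hCeM : 0 ≤ (C3 + C4) * (e * M) := mul_nonneg (by positivity) heM
  have hA1 : b1 ≤ S + A * (u * Q) := by
    have h1 := (abs_le.1 t1).2
    rw [hsb1, hs1] at h1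
    have h2 : (∑ w ∈ (KP n).filter G, T1 (ph a) w +
        ∑ w ∈ (KP n).filter (fun w => ¬ G w), T1 (ph a) w) / (n : ℝ) ^ 2 ≤
        C2 * (b0 / n) + 2 * ((C3 + C4) * (e * M)) := by
      calc _ ≤ (C2 * n * b0 + 2 * n * ((C3 + C4) * (e * M))) / (n : ℝ) ^ 2 :=
            div_le_div_of_nonneg_right (add_le_add hg1 hbad1) (by positivity)
        _ = C2 * (b0 / n) + 2 * ((C3 + C4) * (e * M)) / n := by
            field_simp
        _ ≤ _ := by
            have : 2 * ((C3 + C4) * (e * M)) / n ≤ 2 * ((C3 + C4) * (e * M)) :=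
              div_le_self (by positivity) (by linarith)
            linarith
    have h3 : D * ((∑ w ∈ (KP n).filter G, T1 (ph a) w +
        ∑ w ∈ (KP n).filter (fun w => ¬ G w), T1 (ph a) w) / (n : ℝ) ^ 2 + (few (n + 2)).card) ≤
        D * (C2 * (b0 / n) + 2 * ((C3 + C4) * (e * M)) + Df * (e * M)) := by
      refine mul_le_mul_of_nonneg_left ?_ hD.le
      linarith
    have h4 : b1 ≤ S + 4000 * ((C3 + C4) * (e * M)) +
        D * (C2 * (b0 / n) + 2 * ((C3 + C4) * (e * M)) + Df * (e * M)) := by linarith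
    have h5 : 4000 * ((C3 + C4) * (e * M)) +
        D * (C2 * (b0 / n) + 2 * ((C3 + C4) * (e * M)) + Df * (e * M)) =
        (4000 * (C3 + C4) + 2 * D * (C3 + C4) + D * Df) * (e * M) + D * C2 * (b0 / n) := by ring
    have h6 : (4000 * (C3 + C4) + 2 * D * (C3 + C4) + D * Df) * (e * M) + D * C2 * (b0 / n) ≤
        (4000 * (C3 + C4) + 2 * D * (C3 + C4) + D * Df) * (C7 * (u * Q)) + D * C2 * (u * Q) :=
      add_le_add (mul_le_mul_of_nonneg_left er2 (by positivity))
        (mul_le_mul_of_nonneg_left er1 (by positivity))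
    have h7 : (4000 * (C3 + C4) + 2 * D * (C3 + C4) + D * Df) * (C7 * (u * Q)) + D * C2 * (u * Q) =
        K1 * (u * Q) := by
      rw [hK1]
      ring
    have h8 : K1 * (u * Q) ≤ A * (u * Q) := by
      refine mul_le_mul_of_nonneg_right ?_ (mul_nonneg hu0 hQ0)
      rw [hA]
      linarith
    linarith
  have hA2 : S ≤ A * b0 := by
    have h1 : S ≤ 2000 * C2 * b0 := by
      rw [hS]
      calc _ ≤ ∑ w ∈ (KP n).filter G, 2000 * C2 * ph a w := by
            refine sum_le_sum ?_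
            intro w hw
            have h2 := hgood w hw
            rw [div_le_iff₀ (lt_of_lt_of_le hn2000 (hbt w h2.1))]
            have hph0 := ph_nonneg a w
            calc T1 (ph a) w ≤ C2 * n * ph a w := h2.2.2.1
              _ = 2000 * C2 * ph a w * (n / 2000) := by ring
              _ ≤ _ := mul_le_mul_of_nonneg_left (hbt w h2.1) (by positivity)
        _ = 2000 * C2 * ∑ w ∈ (KP n).filter G, ph a w := by rw [mul_sum]
        _ ≤ _ := mul_le_mul_of_nonneg_left hGsum (by positivity)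
    refine h1.trans (mul_le_mul_of_nonneg_right ?_ hb00)
    rw [hA]
    linarith
  have hA3 : S ^ 2 ≤ b0 * (b2 + A * (u * Q)) := by
    obtain ⟨X, hX⟩ : ∃ X : List Dir → ℝ, X = fun w =>
        ((2 * ((a - base w : ℤ) : ℝ) - (Fl w).card) / (Fl w).card) ^ 2 + 1 / (Fl w).card + 1 / n :=
      ⟨_, rfl⟩
    have hX0 : ∀ w, 0 ≤ X w := by
      intro w
      rw [hX]
      positivity
    obtain ⟨Z, hZ⟩ : ∃ Z : ℝ, Z = ∑ w ∈ (KP n).filter G,
        (T2 (ph a) w + C2 * (n : ℝ) ^ 2 * ph a w * X w) / bt w ^ 2 := ⟨_, rfl⟩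
    have h1 : S ^ 2 ≤ (∑ w ∈ (KP n).filter G, ph a w) * Z := by
      rw [hS, hZ]
      refine cs _ _ _ _ ?_ ?_ ?_ ?_
      · intro w hw
        exact div_nonneg (T1_nonneg a w) (hn2000.le.trans (hbt w (hgood w hw).1))
      · intro w _
        exact ph_nonneg a w
      · intro w hw
        refine div_nonneg ?_ (sq_nonneg _)
        have := ph_nonneg a w
        have := hX0 w
        have := T2_nonneg a w
        positivity
      · intro w hw
        have h2 := (hgood w hw).2.2.2.2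
        have hbp : 0 < bt w := lt_of_lt_of_le hn2000 (hbt w (hgood w hw).1)
        rw [div_pow, ← mul_div_assoc]
        refine div_le_div_of_nonneg_right ?_ (by positivity)
        rw [hX]
        refine h2.trans (le_of_eq ?_)
        ring
    have hZ1 : Z ≤ b2 + A * (u * Q) := by
      have h2 : Z = ∑ w ∈ (KP n).filter G, T2 (ph a) w / bt w ^ 2 +
          ∑ w ∈ (KP n).filter G, C2 * (n : ℝ) ^ 2 * ph a w * X w / bt w ^ 2 := by
        rw [hZ, ← sum_add_distrib]
        refine sum_congr rfl ?_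
        intro w _
        rw [add_div]
      have h3 : ∑ w ∈ (KP n).filter G, T2 (ph a) w / bt w ^ 2 ≤
          ∑ w ∈ KP n, T2 (ph a) w / bt w ^ 2 := by
        refine sum_le_sum_of_subset_of_nonneg (filter_subset _ _) ?_
        intro w _ _
        exact div_nonneg (T2_nonneg a w) (sq_nonneg _)
      have h4 : ∑ w ∈ KP n, T2 (ph a) w / bt w ^ 2 ≤ b2 +
          D * (C2 * (b0 / n) + 12 * ((C3 + C4) * (e * M)) + Df * (e * M)) := by
        have k1 := (abs_le.1 t2).1
        rw [hs2] at k1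
        have k2 : (∑ w ∈ (KP n).filter G, T2 (ph a) w +
            ∑ w ∈ (KP n).filter (fun w => ¬ G w), T2 (ph a) w) / (n : ℝ) ^ 3 ≤
            C2 * (b0 / n) + 12 * ((C3 + C4) * (e * M)) := by
          have k3 : 2 * (n : ℝ) * (2 * (n + 2)) ≤ 12 * n ^ 2 := by nlinarith
          calc _ ≤ (C2 * n ^ 2 * b0 + 12 * n ^ 2 * ((C3 + C4) * (e * M))) / (n : ℝ) ^ 3 := by
                refine div_le_div_of_nonneg_right (add_le_add hg2 (hbad2.trans ?_)) (by positivity)
                exact mul_le_mul_of_nonneg_right k3 hCeM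
            _ = C2 * (b0 / n) + 12 * ((C3 + C4) * (e * M)) / n := by
                field_simp
            _ ≤ _ := by
                have : 12 * ((C3 + C4) * (e * M)) / n ≤ 12 * ((C3 + C4) * (e * M)) :=
                  div_le_self (by positivity) (by linarith)
                linarith
        have k4 : D * ((∑ w ∈ (KP n).filter G, T2 (ph a) w +
            ∑ w ∈ (KP n).filter (fun w => ¬ G w), T2 (ph a) w) / (n : ℝ) ^ 3 +
              (few (n + 2)).card + (few (n + 4)).card) ≤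
            D * (C2 * (b0 / n) + 12 * ((C3 + C4) * (e * M)) + Df * (e * M)) := by
          refine mul_le_mul_of_nonneg_left ?_ hD.le
          linarith
        linarith
      have h5 : ∑ w ∈ (KP n).filter G, C2 * (n : ℝ) ^ 2 * ph a w * X w / bt w ^ 2 ≤
          C2 * 4000000 * ((16 / ε ^ 2 + 1 / ε + 1) * (u * Q)) := by
        have k1 : ∀ w ∈ (KP n).filter G, C2 * (n : ℝ) ^ 2 * ph a w * X w / bt w ^ 2 ≤
            C2 * 4000000 * (ph a w * X w) := by
          intro w hw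
          have hbp : 0 < bt w := lt_of_lt_of_le hn2000 (hbt w (hgood w hw).1)
          rw [div_le_iff₀ (by positivity)]
          have k2 : (n : ℝ) ^ 2 ≤ 4000000 * bt w ^ 2 := by
            have := pow_le_pow_left₀ hn2000.le (hbt w (hgood w hw).1) 2
            rw [div_pow] at this
            linarith
          have k3 : 0 ≤ C2 * (ph a w * X w) :=
            mul_nonneg hC2.le (mul_nonneg (ph_nonneg a w) (hX0 w))
          calc C2 * (n : ℝ) ^ 2 * ph a w * X w = C2 * (ph a w * X w) * n ^ 2 := by ring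
            _ ≤ C2 * (ph a w * X w) * (4000000 * bt w ^ 2) := mul_le_mul_of_nonneg_left k2 k3
            _ = _ := by ring
        refine (sum_le_sum k1).trans ?_
        rw [← mul_sum]
        refine mul_le_mul_of_nonneg_left ?_ (by positivity)
        have k4 : ∀ w ∈ (KP n).filter G, ph a w * X w ≤
            ph a w * ((2 * ((a - base w : ℤ) : ℝ) - (Fl w).card) / (Fl w).card) ^ 2 +
              ((1 / ε + 1) / n) * ph a w := by
          intro w hw
          have k5 := (hgood w hw).2.1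
          have k6 : 1 / ((Fl w).card : ℝ) ≤ 1 / (ε * n) :=
            one_div_le_one_div_of_le (by positivity) k5
          rw [hX]
          have k7 : 1 / ((Fl w).card : ℝ) + 1 / n ≤ (1 / ε + 1) / n := by
            refine (add_le_add k6 le_rfl).trans (le_of_eq ?_)
            field_simp
          have hph0 := ph_nonneg a w
          calc _ = ph a w * ((2 * ((a - base w : ℤ) : ℝ) - (Fl w).card) / (Fl w).card) ^ 2 +
                (1 / ((Fl w).card : ℝ) + 1 / n) * ph a w := by ring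
            _ ≤ _ := add_le_add le_rfl (mul_le_mul_of_nonneg_right k7 hph0)
        refine (sum_le_sum k4).trans ?_
        rw [sum_add_distrib, ← mul_sum]
        have k8 : ∑ w ∈ (KP n).filter G,
            ph a w * ((2 * ((a - base w : ℤ) : ℝ) - (Fl w).card) / (Fl w).card) ^ 2 ≤
            16 / ε ^ 2 * (u * Q) := by
          have k9 := sumx hph hen hflp ε hε n hn a L hL
          rw [← hb0, ← hM, ← hQ, ← hu] at k9
          refine le_trans ?_ k9
          refine sum_le_sum_of_subset_of_nonneg ?_ ?_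
          · intro w hw
            exact mem_XB.2 ⟨(hgood w hw).1, Set.mem_univ _, (hgood w hw).2.1⟩
          · intro w _ _
            exact mul_nonneg (ph_nonneg a w) (sq_nonneg _)
        have k10 : (1 / ε + 1) / n * ∑ w ∈ (KP n).filter G, ph a w ≤ (1 / ε + 1) * (u * Q) := by
          calc _ ≤ (1 / ε + 1) / n * b0 := mul_le_mul_of_nonneg_left hGsum (by positivity)
            _ = (1 / ε + 1) * (b0 / n) := by ring
            _ ≤ _ := mul_le_mul_of_nonneg_left er1 (by positivity)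
        calc _ ≤ 16 / ε ^ 2 * (u * Q) + (1 / ε + 1) * (u * Q) := add_le_add k8 k10
          _ = _ := by ring
      have h6 : D * (C2 * (b0 / n) + 12 * ((C3 + C4) * (e * M)) + Df * (e * M)) ≤
          (D * C2 + D * (12 * (C3 + C4) + Df) * C7) * (u * Q) := by
        calc _ = D * C2 * (b0 / n) + D * (12 * (C3 + C4) + Df) * (e * M) := by ring
          _ ≤ D * C2 * (u * Q) + D * (12 * (C3 + C4) + Df) * (C7 * (u * Q)) :=
            add_le_add (mul_le_mul_of_nonneg_left er1 (by positivity))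
              (mul_le_mul_of_nonneg_left er2 (by positivity))
          _ = _ := by ring
      have h7 : (D * C2 + D * (12 * (C3 + C4) + Df) * C7) * (u * Q) +
          C2 * 4000000 * ((16 / ε ^ 2 + 1 / ε + 1) * (u * Q)) = K2 * (u * Q) := by
        rw [hK2]
        ring
      have h8 : K2 * (u * Q) ≤ A * (u * Q) := by
        refine mul_le_mul_of_nonneg_right ?_ (mul_nonneg hu0 hQ0)
        rw [hA]
        linarith
      rw [h2]
      linarith
    have hZ0 : 0 ≤ Z := by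
      rw [hZ]
      refine sum_nonneg ?_
      intro w hw
      refine div_nonneg ?_ (sq_nonneg _)
      have := ph_nonneg a w
      have := hX0 w
      have := T2_nonneg a w
      positivity
    exact h1.trans (mul_le_mul hGsum hZ1 hZ0 hb00)
  have hfin := fin1 hb10 hb00 hA0.le hu0 hu1 hQb hA1 hA2 hA3
  rw [← hb0, ← hb1, ← hb2, ← hM, ← hu]
  refine hfin.trans ?_
  have : Q ^ 2 ≤ (b0 + b1 + Real.exp (-L) * M) ^ 2 := by
    refine pow_le_pow_left₀ hQ0 ?_ 2
    rw [hQ]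
    linarith
  have h9 : (A + 3 * A ^ 2) * u * Q ^ 2 ≤ (A + 3 * A ^ 2) * u * (b0 + b1 + Real.exp (-L) * M) ^ 2 :=
    mul_le_mul_of_nonneg_left this (by positivity)
  linarith

end Pool.Agent.Q14.PT.LO2
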