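import Pool.Agent.Q91.PT.Stm4
import Pool.Agent.Q210.PT.FLC
import Pool.Agent.H739K.AREA

/-! # Project PT (helper91), job MAT: insertions act locally -/

set_option autoImplicit false

namespace Pool.Agent.Q14.PT.MAT

open Finset Pool.Agent.H976R2 Pool.Agent.H976R2.Lip Pool.Agent.H739K Pool.Agent.H924P
open Pool.Agent.Q91.PT Pool.Agent.Q210.PT
open scoped Classical

/-- box distance at most `r` -/
def nr (r : ℤ) (P c : ℤ × ℤ) : Prop := |c.1 - P.1| ≤ r ∧ |c.2 - P.2| ≤ r

theorem nr_trans {r s : ℤ} {P c d : ℤ × ℤ} (h : nr r P c) (h' : nr s c d) : nr (r + s) P d := by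
  unfold nr at *
  have a1 := abs_le.1 h.1
  have a2 := abs_le.1 h.2
  have a3 := abs_le.1 h'.1
  have a4 := abs_le.1 h'.2
  constructor <;> rw [abs_le] <;> omega

theorem nr_symm {r : ℤ} {P c : ℤ × ℤ} (h : nr r P c) : nr r c P := by
  unfold nr at h ⊢
  rw [abs_sub_comm P.1, abs_sub_comm P.2]
  exact h

theorem nr_mono {r s : ℤ} {P c : ℤ × ℤ} (h : nr r P c) (hrs : r ≤ s) : nr s P c :=
  ⟨h.1.trans hrs, h.2.trans hrs⟩

theorem nr_dv (P : ℤ × ℤ) (e : Dir) : nr 1 P (P + dv e) := by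
  unfold nr dv
  cases e <;> simp [dx, dy]

theorem nr_step (w : List Dir) (j : ℕ) : nr 1 (PP w j) (PP w (j + 1)) := by
  rcases lt_or_ge j w.length with h | h
  · rw [PP_succ w j h]
    exact nr_dv _ _
  · rw [PP_ge w j h, PP_ge w (j + 1) (by omega)]
    unfold nr
    simp

theorem nr_add (w : List Dir) (j m : ℕ) : nr m (PP w j) (PP w (j + m)) := by
  induction m with
  | zero =>
    unfold nr
    simp
  | succ m ih =>
    have h := nr_trans ih (nr_step w (j + m))
    have e1 : ((m : ℕ) : ℤ) + 1 = ((m + 1 : ℕ) : ℤ) := by push_cast; rfl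
    rw [e1, add_assoc] at h
    exact h

theorem nr_le (w : List Dir) (a b : ℕ) (m : ℕ) (h1 : a ≤ b + m) (h2 : b ≤ a + m) :
    nr m (PP w a) (PP w b) := by
  rcases le_total a b with h | h
  · obtain ⟨k, rfl⟩ : ∃ k, b = a + k := ⟨b - a, by omega⟩
    exact nr_mono (nr_add w a k) (by exact_mod_cast (by omega : k ≤ m))
  · obtain ⟨k, rfl⟩ : ∃ k, a = b + k := ⟨a - b, by omega⟩
    exact nr_symm (nr_mono (nr_add w b k) (by exact_mod_cast (by omega : k ≤ m)))

/-- the cell of a corner is near the corner -/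
theorem nr_cl (w : List Dir) (k : ℕ) (hk1 : 1 ≤ k) :
    nr 2 (PP w (k - 1)) (Pool.Agent.Q91.PT.cl w k) := by
  have h := nr_le w (k - 1) (k + 1) 2 (by omega) (by omega)
  unfold nr at h ⊢
  unfold Pool.Agent.Q91.PT.cl
  have a1 := abs_le.1 h.1
  have a2 := abs_le.1 h.2
  push_cast at a1 a2
  simp only
  constructor <;> rw [abs_le] <;> omega

/-- criterion -/
theorem mem_Fl2 (u : List Dir) (hu : Saw u) (k : ℕ) : k ∈ Fl u ↔ (1 ≤ k ∧ k < u.length ∧
    perp (lt u (k - 1)) (lt u k) ∧ Even (Pool.Agent.Q91.PT.cl u k).1 ∧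
    Even (Pool.Agent.Q91.PT.cl u k).2 ∧ ∀ l ≤ u.length, PP u l ≠ PP u (k - 1) + dv (lt u k)) := by
  constructor
  · intro h
    have h1 := (mem_Fl u k).1 h
    exact ⟨h1.1, h1.2.1, h1.2.2.1, h1.2.2.2.1, h1.2.2.2.2.1, (fla u k hu h).2.2.2.2.1⟩
  · rintro ⟨h1, h2, h3, h4, h5, h6⟩
    exact (mem_Fl u k).2 ⟨h1, h2, h3, h4, h5, saw_sw u k hu h1 h2 fun i hi _ => h6 i hi⟩

theorem vis_iff (u : List Dir) (p : ℤ × ℤ) : vis u p ↔ ∃ l ≤ u.length, PP u l = p := by
  unfold vis
  constructor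
  · rintro ⟨a, b, h1, h2, h3⟩
    refine ⟨a.length, by rw [h1]; simp, ?_⟩
    unfold PP
    rw [h1, List.take_left' rfl, h2, h3]
  · rintro ⟨l, hl, h⟩
    refine ⟨u.take l, u.drop l, (List.take_append_drop l u).symm, ?_, ?_⟩
    · rw [← h]
      rfl
    · rw [← h]
      rfl

theorem not_vis_iff (u : List Dir) (p : ℤ × ℤ) : ¬ vis u p ↔ ∀ l ≤ u.length, PP u l ≠ p := by
  rw [vis_iff]
  push Not
  rfl

/-- corners that are not at the bump -/
theorem corner_sh (u : List Dir) (i : ℕ) (e : Dir) (hi : i < u.length) (k : ℕ) (hk1 : 1 ≤ k)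
    (hk : k + 1 < i ∨ i + 2 ≤ k) :
    lt (ins u i e) (sh i k - 1) = lt u (k - 1) ∧ lt (ins u i e) (sh i k) = lt u k ∧
    PP (ins u i e) (sh i k - 1) = PP u (k - 1) ∧ PP (ins u i e) (sh i k + 1) = PP u (k + 1) ∧
    (sh i k < (ins u i e).length ↔ k < u.length) ∧ 1 ≤ sh i k := by
  rw [ins_length u i e hi]
  rcases hk with hk | hk
  · have e1 : sh i k = k := by
      unfold sh
      rw [if_pos (by omega)]
    rw [e1]
    refine ⟨lt_ins_lt u i (k - 1) e hi (by omega), lt_ins_lt u i k e hi (by omega),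
      PP_ins_le u i (k - 1) e hi (by omega), PP_ins_le u i (k + 1) e hi (by omega), by omega, hk1⟩
  · have e1 : sh i k = k + 2 := by
      unfold sh
      rw [if_neg (by omega)]
    rw [e1]
    have e2 : k + 2 - 1 = k - 1 + 2 := by omega
    have e3 : k + 2 + 1 = k + 1 + 2 := by omega
    rw [e2, e3]
    refine ⟨lt_ins_gt u i (k - 1) e hi (by omega), lt_ins_gt u i k e hi (by omega),
      PP_ins_gt u i (k - 1) e hi (by omega), PP_ins_gt u i (k + 1) e hi (by omega), by omega,
      by omega⟩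

theorem cl_sh (u : List Dir) (i : ℕ) (e : Dir) (hi : i < u.length) (k : ℕ) (hk1 : 1 ≤ k)
    (hk : k + 1 < i ∨ i + 2 ≤ k) :
    Pool.Agent.Q91.PT.cl (ins u i e) (sh i k) = Pool.Agent.Q91.PT.cl u k := by
  obtain ⟨_, _, h3, h4, _⟩ := corner_sh u i e hi k hk1 hk
  unfold Pool.Agent.Q91.PT.cl
  rw [h3, h4]

theorem Fl_sh (u : List Dir) (hu : Saw u) (i : ℕ) (e : Dir) (hi : i < u.length)
    (hu' : Saw (ins u i e)) (k : ℕ) (hk1 : 1 ≤ k) (hk : k + 1 < i ∨ i + 2 ≤ k) :
    sh i k ∈ Fl (ins u i e) ↔ (k ∈ Fl u ∧ PP u (k - 1) + dv (lt u k) ≠ PP u i + dv e ∧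
      PP u (k - 1) + dv (lt u k) ≠ PP u i + dv e + dv (lt u i)) := by
  obtain ⟨h1, h2, h3, h4, h5, h6⟩ := corner_sh u i e hi k hk1 hk
  rw [mem_Fl2 _ hu', mem_Fl2 _ hu, ← not_vis_iff, ← not_vis_iff, cl_sh u i e hi k hk1 hk, h1, h2,
    h3, h5, vis_ins u i e hi]
  tauto

/-- the cells of the flippable corners -/
noncomputable def FC (u : List Dir) : Finset (ℤ × ℤ) := (Fl u).image (Pool.Agent.Q91.PT.cl u)

theorem card_FC (u : List Dir) (hu : Saw u) : (FC u).card = (Fl u).card := by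
  unfold FC
  refine card_image_of_injOn ?_
  intro k hk k' hk' h
  exact cell_inj u k k' hu (mem_coe.1 hk) (mem_coe.1 hk') h

theorem FC_loc (u : List Dir) (hu : Saw u) (i : ℕ) (e : Dir) (hadm : (i, e) ∈ adm u) (c : ℤ × ℤ)
    (hc : ¬ nr 5 (PP u i) c) : c ∈ FC (ins u i e) ↔ c ∈ FC u := by
  have h0 := hadm
  unfold adm at h0
  rw [mem_filter, mem_product, mem_range] at h0
  have hi : i < u.length := h0.1.1
  have hu' : Saw (ins u i e) := h0.2.2
  unfold FC
  rw [mem_image, mem_image]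
  constructor
  · rintro ⟨k', hk', hcl⟩
    have hk1 : 1 ≤ k' := ((mem_Fl _ _).1 hk').1
    have hfar : k' - 1 + 3 < i ∨ i + 3 < k' - 1 := by
      by_contra hcon
      push Not at hcon
      apply hc
      have a1 := nr_le (ins u i e) i (k' - 1) 3 (by omega) (by omega)
      rw [PP_ins_le u i i e hi le_rfl] at a1
      have a2 := nr_trans a1 (nr_cl (ins u i e) k' hk1)
      rw [hcl] at a2
      exact nr_mono a2 (by norm_num)
    obtain ⟨k, hk, hk2, hk3⟩ : ∃ k, sh i k = k' ∧ 1 ≤ k ∧ (k + 1 < i ∨ i + 2 ≤ k) := by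
      rcases hfar with h | h
      · refine ⟨k', ?_, hk1, by omega⟩
        unfold sh
        rw [if_pos (by omega)]
      · refine ⟨k' - 2, ?_, by omega, by omega⟩
        unfold sh
        rw [if_neg (by omega)]
        omega
    subst hk
    refine ⟨k, ((Fl_sh u hu i e hi hu' k hk2 hk3).1 hk').1, ?_⟩
    rw [← cl_sh u i e hi k hk2 hk3]
    exact hcl
  · rintro ⟨k, hk, hcl⟩
    have hk1 : 1 ≤ k := ((mem_Fl _ _).1 hk).1
    have hfar : k - 1 + 3 < i ∨ i + 3 < k - 1 := by
      by_contra hcon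
      push Not at hcon
      apply hc
      have a1 := nr_le u i (k - 1) 3 (by omega) (by omega)
      have a2 := nr_trans a1 (nr_cl u k hk1)
      rw [hcl] at a2
      exact nr_mono a2 (by norm_num)
    have hk3 : k + 1 < i ∨ i + 2 ≤ k := by omega
    refine ⟨sh i k, ?_, ?_⟩
    · rw [Fl_sh u hu i e hi hu' k hk1 hk3]
      have b1 : nr 3 (PP u (k - 1) + dv (lt u k)) c := by
        have := nr_trans (nr_symm (nr_dv (PP u (k - 1)) (lt u k))) (nr_cl u k hk1)
        rw [hcl] at this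
        exact nr_mono this (by norm_num)
      refine ⟨hk, ?_, ?_⟩
      · intro h
        apply hc
        rw [h] at b1
        exact nr_mono (nr_trans (nr_dv (PP u i) e) b1) (by norm_num)
      · intro h
        apply hc
        rw [h] at b1
        exact nr_mono (nr_trans (nr_trans (nr_dv (PP u i) e) (nr_dv _ (lt u i))) b1) (by norm_num)
    · rw [cl_sh u i e hi k hk1 hk3]
      exact hcl

theorem ins_loc (u : List Dir) (hu : Saw u) (i : ℕ) (e : Dir) (hadm : (i, e) ∈ adm u) (c : ℤ × ℤ)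
    (hc : ¬ nr 5 (PP u i) c) : ins' (ins u i e) c ↔ ins' u c := by
  rw [mem_adm hu] at hadm
  obtain ⟨hi, hp, _, _⟩ := hadm
  refine AREAx.encl_same u i e hi hp c ?_
  intro h
  apply hc
  rw [h]
  unfold nr
  have a1 : |dx e| ≤ 1 ∧ |dy e| ≤ 1 := by cases e <;> simp [dx, dy]
  have a2 : |dx (lt u i)| ≤ 1 ∧ |dy (lt u i)| ≤ 1 := by
    generalize lt u i = d
    cases d <;> simp [dx, dy]
  have b1 := abs_le.1 a1.1
  have b2 := abs_le.1 a1.2
  have b3 := abs_le.1 a2.1
  have b4 := abs_le.1 a2.2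
  simp only
  constructor <;> rw [abs_le] <;> omega

/-- the enclosed cells that are not flippable -/
def GS (u : List Dir) : Set (ℤ × ℤ) := {c | ins' u c ∧ c ∉ FC u}

theorem GS_loc (u : List Dir) (hu : Saw u) (i : ℕ) (e : Dir) (hadm : (i, e) ∈ adm u) (c : ℤ × ℤ)
    (hc : ¬ nr 5 (PP u i) c) : c ∈ GS (ins u i e) ↔ c ∈ GS u := by
  unfold GS
  rw [Set.mem_ofPred_eq, Set.mem_ofPred_eq, FC_loc u hu i e hadm c hc, ins_loc u hu i e hadm c hc]

theorem GS_fin (u : List Dir) (hu : Saw u) (hs : Pool.Agent.H976R2.sq u = 1) : (GS u).Finite :=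
  (fin_ins u hu hs).subset fun _ hc => hc.1

theorem base_eq (u : List Dir) (hu : Saw u) (hs : Pool.Agent.H976R2.sq u = 1) :
    base u = ((GS u).ncard : ℤ) := by
  unfold base
  rw [ar_eq]
  have h1 : (Dn Fl bb u : ℕ) = ({c | ins' u c} ∩ (FC u : Set (ℤ × ℤ))).ncard := by
    unfold Dn
    have e1 : ({c | ins' u c} ∩ (FC u : Set (ℤ × ℤ))) =
        (((Fl u).filter (fun k => bb u k)).image (Pool.Agent.Q91.PT.cl u) : Finset (ℤ × ℤ)) := by
      ext c
      rw [mem_coe, mem_image]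
      constructor
      · rintro ⟨h2, h3⟩
        rw [mem_coe] at h3
        unfold FC at h3
        obtain ⟨k, hk, hkc⟩ := mem_image.1 h3
        refine ⟨k, mem_filter.2 ⟨hk, ?_⟩, hkc⟩
        unfold bb
        rw [hkc]
        exact h2
      · rintro ⟨k, hk, hkc⟩
        rw [mem_filter] at hk
        refine ⟨?_, ?_⟩
        · rw [← hkc]
          exact hk.2
        · rw [mem_coe]
          unfold FC
          exact mem_image.2 ⟨k, hk.1, hkc⟩
    rw [e1, Set.ncard_coe_finset, card_image_of_injOn]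
    intro k hk k' hk' h
    exact cell_inj u k k' hu (mem_filter.1 (mem_coe.1 hk)).1 (mem_filter.1 (mem_coe.1 hk')).1 h
  have h2 : {c | ins' u c} \ (FC u : Set (ℤ × ℤ)) = GS u := by
    ext c
    unfold GS
    rw [Set.mem_sdiff, mem_coe]
    rfl
  have h3 := Set.ncard_inter_add_ncard_sdiff_eq_ncard {c | ins' u c} (FC u : Set (ℤ × ℤ))
    (fin_ins u hu hs)
  rw [h2, ← h1] at h3
  omega

/-- comparison of four sets -/
theorem four {α : Type} (A B A' B' N : Set α) (hA : A.Finite) (hB : B.Finite) (hA' : A'.Finite)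
    (hB' : B'.Finite) (h1 : ∀ c, c ∉ N → (c ∈ B ↔ c ∈ A)) (h2 : ∀ c, c ∉ N → (c ∈ B' ↔ c ∈ A'))
    (h3 : ∀ c ∈ N, (c ∈ A' ↔ c ∈ A)) (h4 : ∀ c ∈ N, (c ∈ B' ↔ c ∈ B)) :
    (B'.ncard : ℤ) - A'.ncard = (B.ncard : ℤ) - A.ncard := by
  have a1 := Set.ncard_inter_add_ncard_sdiff_eq_ncard A N hA
  have a2 := Set.ncard_inter_add_ncard_sdiff_eq_ncard B N hB
  have a3 := Set.ncard_inter_add_ncard_sdiff_eq_ncard A' N hA'
  have a4 := Set.ncard_inter_add_ncard_sdiff_eq_ncard B' N hB'
  have e1 : B \ N = A \ N := by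
    ext c
    rw [Set.mem_sdiff, Set.mem_sdiff]
    constructor
    · rintro ⟨x, y⟩
      exact ⟨(h1 c y).1 x, y⟩
    · rintro ⟨x, y⟩
      exact ⟨(h1 c y).2 x, y⟩
  have e2 : B' \ N = A' \ N := by
    ext c
    rw [Set.mem_sdiff, Set.mem_sdiff]
    constructor
    · rintro ⟨x, y⟩
      exact ⟨(h2 c y).1 x, y⟩
    · rintro ⟨x, y⟩
      exact ⟨(h2 c y).2 x, y⟩
  have e3 : A' ∩ N = A ∩ N := by
    ext c
    rw [Set.mem_inter_iff, Set.mem_inter_iff]
    constructor
    · rintro ⟨x, y⟩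
      exact ⟨(h3 c y).1 x, y⟩
    · rintro ⟨x, y⟩
      exact ⟨(h3 c y).2 x, y⟩
  have e4 : B' ∩ N = B ∩ N := by
    ext c
    rw [Set.mem_inter_iff, Set.mem_inter_iff]
    constructor
    · rintro ⟨x, y⟩
      exact ⟨(h4 c y).1 x, y⟩
    · rintro ⟨x, y⟩
      exact ⟨(h4 c y).2 x, y⟩
  rw [e1] at a2
  rw [e2, e4] at a4
  rw [e3] at a3
  omega

theorem ins_append (a t : List Dir) (x e : Dir) (i : ℕ) (hi : i = a.length) :
    ins (a ++ x :: t) i e = a ++ e :: x :: opp e :: t := by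
  subst hi
  unfold ins lt
  rw [List.take_left' rfl]
  congr 2
  have e1 : (a ++ x :: t).getD a.length Dir.E = x := by
    rw [List.getD_eq_getElem?_getD, List.getElem?_append_right le_rfl]
    simp
  rw [e1]
  congr 2
  rw [List.drop_append]
  simp

theorem ins_comm_lt (w : List Dir) (i j : ℕ) (e f : Dir) (hij : i < j) (hj : j < w.length) :
    ins (ins w i e) (j + 2) f = ins (ins w j f) i e := by
  obtain ⟨a, x, b, y, c, ha, hb, hw⟩ : ∃ (a : List Dir) (x : Dir) (b : List Dir) (y : Dir)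
      (c : List Dir), i = a.length ∧ j = a.length + 1 + b.length ∧ w = a ++ x :: (b ++ y :: c) := by
    have s1 := split_at w i (by omega)
    have s2 := split_at (w.drop (i + 1)) (j - i - 1) (by rw [List.length_drop]; omega)
    refine ⟨w.take i, lt w i, (w.drop (i + 1)).take (j - i - 1), lt (w.drop (i + 1)) (j - i - 1),
      (w.drop (i + 1)).drop (j - i - 1 + 1), ?_, ?_, ?_⟩
    · rw [List.length_take]
      omega
    · rw [List.length_take, List.length_take, List.length_drop]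
      omega
    · rw [← s2]
      exact s1
  subst hw
  rw [ins_append a _ x e i ha]
  have e1 : a ++ x :: (b ++ y :: c) = (a ++ x :: b) ++ y :: c := by simp
  rw [e1, ins_append (a ++ x :: b) c y f j (by rw [hb]; simp; omega)]
  have e2 : a ++ e :: x :: opp e :: (b ++ y :: c) = (a ++ e :: x :: opp e :: b) ++ y :: c := by simp
  rw [e2, ins_append (a ++ e :: x :: opp e :: b) c y f (j + 2) (by rw [hb]; simp; omega)]
  have e3 : (a ++ x :: b) ++ f :: y :: opp f :: c = a ++ x :: (b ++ f :: y :: opp f :: c) := by simp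
  rw [e3, ins_append a _ x e i ha]
  simp

theorem ins_comm (w : List Dir) (i j : ℕ) (e f : Dir) (hij : i ≠ j) (hi : i < w.length)
    (hj : j < w.length) : ins (ins w i e) (sh i j) f = ins (ins w j f) (sh j i) e := by
  unfold sh
  rcases lt_or_ge i j with h | h
  · rw [if_neg (by omega), if_pos h]
    exact ins_comm_lt w i j e f h hj
  · rw [if_pos (by omega), if_neg (by omega)]
    exact (ins_comm_lt w j i f e (by omega) hi).symm

/-- Job `PT-MAT` (helper91). -/
theorem t : S_mat := by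
  refine ⟨2000, ?_⟩
  intro w hl hw hs p hp
  obtain ⟨i, e⟩ := p
  have hp0 := hp
  unfold adm at hp0
  rw [mem_filter, mem_product, mem_range] at hp0
  have hi : i < w.length := hp0.1.1
  have hw' : Saw (ins w i e) := hp0.2.2
  refine ⟨fun q => (sh i q.1, q.2), (adm w).filter (fun q => nr 10 (PP w i) (PP w q.1)),
    filter_subset _ _, ?_, ?_, ?_, ?_⟩
  · have h1 : ((adm w).filter (fun q => nr 10 (PP w i) (PP w q.1))).card ≤
        ((Finset.Icc ((PP w i).1 - 10) ((PP w i).1 + 10) ×ˢ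
          Finset.Icc ((PP w i).2 - 10) ((PP w i).2 + 10)) ×ˢ (univ : Finset Dir)).card := by
      refine card_le_card_of_injOn (fun q => (PP w q.1, q.2)) ?_ ?_
      · intro q hq
        rw [mem_coe, mem_filter] at hq
        have h2 := abs_le.1 hq.2.1
        have h3 := abs_le.1 hq.2.2
        rw [mem_coe, mem_product, mem_product, mem_Icc, mem_Icc]
        simp only [mem_univ, and_true]
        omega
      · intro q hq q' hq' hqq
        rw [mem_coe, mem_filter] at hq hq'
        have a1 := ((mem_adm hw q.1 q.2).1 hq.1).1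
        have a2 := ((mem_adm hw q'.1 q'.2).1 hq'.1).1
        simp only [Prod.mk.injEq] at hqq
        exact Prod.ext (PP_inj hw (by omega) (by omega) hqq.1) hqq.2
    have h4 : (univ : Finset Dir).card = 4 := rfl
    rw [card_product, card_product, Int.card_Icc, Int.card_Icc, h4] at h1
    have h5 : ((PP w i).1 + 10 + 1 - ((PP w i).1 - 10)).toNat = 21 := by omega
    have h6 : ((PP w i).2 + 10 + 1 - ((PP w i).2 - 10)).toNat = 21 := by omega
    rw [h5, h6] at h1
    omega
  · intro q _ q' _ hqq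
    simp only [Prod.mk.injEq] at hqq
    exact Prod.ext (sh_inj i hqq.1) hqq.2
  · intro q hq
    rw [mem_sdiff, mem_filter] at hq
    obtain ⟨hq1, hq2⟩ := hq
    obtain ⟨j, f⟩ := q
    have hfar : ¬ nr 10 (PP w i) (PP w j) := fun h => hq2 ⟨hq1, h⟩
    have hq0 := hq1
    unfold adm at hq0
    rw [mem_filter, mem_product, mem_range] at hq0
    have hj : j < w.length := hq0.1.1
    have hwq : Saw (ins w j f) := hq0.2.2
    have hij : i ≠ j := by
      rintro rfl
      apply hfar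
      unfold nr
      simp
    have key : ∀ x y : ℤ × ℤ, nr 2 (PP w j) x → nr 2 (PP w i) y → x ≠ y := by
      intro x y hx hy hxy
      apply hfar
      rw [hxy] at hx
      exact nr_mono (nr_trans hy (nr_symm hx)) (by norm_num)
    have kj1 : nr 2 (PP w j) (PP w j + dv f) := nr_mono (nr_dv _ _) (by norm_num)
    have kj2 : nr 2 (PP w j) (PP w j + dv f + dv (lt w j)) := nr_trans (nr_dv _ _) (nr_dv _ _)
    have ki1 : nr 2 (PP w i) (PP w i + dv e) := nr_mono (nr_dv _ _) (by norm_num)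
    have ki2 : nr 2 (PP w i) (PP w i + dv e + dv (lt w i)) := nr_trans (nr_dv _ _) (nr_dv _ _)
    have hm : (sh i j, f) ∈ adm (ins w i e) := by
      rw [mem_adm_sh hw i e hi hw' j hij.symm f]
      exact ⟨hq1, ⟨key _ _ kj1 ki1, key _ _ kj1 ki2⟩, key _ _ kj2 ki1, key _ _ kj2 ki2⟩
    have hm' : (sh j i, e) ∈ adm (ins w j f) := by
      rw [mem_adm_sh hw j f hj hwq i hij e]
      exact ⟨hp, ⟨(key _ _ kj1 ki1).symm, (key _ _ kj2 ki1).symm⟩, (key _ _ kj1 ki2).symm,
        (key _ _ kj2 ki2).symm⟩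
    have hPj : PP (ins w i e) (sh i j) = PP w j := by
      unfold sh
      split_ifs with h
      · exact PP_ins_le w i j e hi (by omega)
      · exact PP_ins_gt w i j e hi (by omega)
    have hPi : PP (ins w j f) (sh j i) = PP w i := by
      unfold sh
      split_ifs with h
      · exact PP_ins_le w j i f hj (by omega)
      · exact PP_ins_gt w j i f hj (by omega)
    have hcomm := ins_comm w i j e f hij hi hj
    have hm0 := hm
    unfold adm at hm0
    rw [mem_filter, mem_product, mem_range] at hm0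
    have hww : Saw (ins (ins w i e) (sh i j) f) := hm0.2.2
    have hlen := ins_length w i e hi
    have hshj : sh i j < (ins w i e).length := hm0.1.1
    have sq1 : Pool.Agent.H976R2.sq (ins w i e) = 1 := by rw [sq_ins e hi, hs]
    have sq2 : Pool.Agent.H976R2.sq (ins w j f) = 1 := by rw [sq_ins f hj, hs]
    have sq3 : Pool.Agent.H976R2.sq (ins (ins w i e) (sh i j) f) = 1 := by
      rw [sq_ins f hshj, sq1]
    have sep : ∀ c, nr 5 (PP w j) c → ¬ nr 5 (PP w i) c := by
      intro c h1 h2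
      exact hfar (nr_mono (nr_trans h2 (nr_symm h1)) (by norm_num))
    refine ⟨hm, ?_, ?_⟩
    · unfold dK
      simp only
      rw [← card_FC _ hww, ← card_FC _ hw', ← card_FC _ hwq, ← card_FC _ hw]
      have h := four (FC w : Set (ℤ × ℤ)) (FC (ins w j f) : Set (ℤ × ℤ))
        (FC (ins w i e) : Set (ℤ × ℤ)) (FC (ins (ins w i e) (sh i j) f) : Set (ℤ × ℤ))
        {c | nr 5 (PP w j) c} (finite_toSet _) (finite_toSet _) (finite_toSet _) (finite_toSet _)
        (fun c hc => FC_loc w hw j f hq1 c hc)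
        (fun c hc => FC_loc (ins w i e) hw' (sh i j) f hm c (by rw [hPj]; exact hc))
        (fun c hc => FC_loc w hw i e hp c (sep c hc))
        (fun c hc => by
          rw [hcomm]
          exact FC_loc (ins w j f) hwq (sh j i) e hm' c (by rw [hPi]; exact sep c hc))
      rw [Set.ncard_coe_finset, Set.ncard_coe_finset, Set.ncard_coe_finset,
        Set.ncard_coe_finset] at h
      exact h
    · unfold dB
      simp only
      rw [base_eq _ hww sq3, base_eq _ hw' sq1, base_eq _ hwq sq2, base_eq _ hw hs]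
      exact four (GS w) (GS (ins w j f)) (GS (ins w i e)) (GS (ins (ins w i e) (sh i j) f))
        {c | nr 5 (PP w j) c} (GS_fin _ hw hs) (GS_fin _ hwq sq2) (GS_fin _ hw' sq1)
        (GS_fin _ hww sq3)
        (fun c hc => GS_loc w hw j f hq1 c hc)
        (fun c hc => GS_loc (ins w i e) hw' (sh i j) f hm c (by rw [hPj]; exact hc))
        (fun c hc => GS_loc w hw i e hp c (sep c hc))
        (fun c hc => by
          rw [hcomm]
          exact GS_loc (ins w j f) hwq (sh j i) e hm' c (by rw [hPi]; exact sep c hc))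
  · have h := AA_ins w hw i e hp
    unfold AA at h
    have h1 := (abs_le.1 h).2
    simp only
    omega

end Pool.Agent.Q14.PT.MAT
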